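import Pool.Agent.Lib.MP_8468cd_lc.Jets

/-!
The diffeomorphism group of a compact manifold is a Baire space in the smooth topology.
-/

set_option autoImplicit false
set_option linter.unusedSectionVars false
set_option linter.style.haveILetI false

namespace Pool.Agent.Lib.MP_8468cd_lc

open Set Filter Topology TopologicalSpace
open scoped ContDiff Manifold

theorem eventually_near {M V : Type} [TopologicalSpace M] [NormedAddCommGroup V] {K : Set M}
    (hK : IsCompact K) {F : M → V} (hF : ∀ z ∈ K, ContinuousAt F z) {O : Set V} (hO : IsOpen O)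
    (h : ∀ z ∈ K, F z ∈ O) : ∀ᶠ ε in 𝓝[>] (0 : ℝ), ∀ z ∈ K, ∀ w, ‖w - F z‖ ≤ ε → w ∈ O := by
  obtain ⟨δ, hδ, h1⟩ := (hK.image_of_continuousOn
    fun z hz => (hF z hz).continuousWithinAt).exists_cthickening_subset_open hO
    (image_subset_iff.2 h)
  filter_upwards [Ioc_mem_nhdsGT hδ] with ε hε z hz w hw
  exact h1 (Metric.mem_cthickening_of_dist_le w (F z) δ _ ⟨z, hz, rfl⟩
    (by rw [dist_eq_norm]; exact hw.trans hε.2))

variable {E : Type} [NormedAddCommGroup E] [NormedSpace ℝ E] [FiniteDimensional ℝ E]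
  {M : Type} [MetricSpace M] [ChartedSpace E M] [IsManifold 𝓘(ℝ, E) ∞ M] [CompactSpace M]

theorem rep_comp {f g : M → M} {x y x' z : M} (hg : ContinuousAt g z)
    (hx : z ∈ (chartAt E x).source) (hy : g z ∈ (chartAt E y).source) :
    rep E f y x' ∘ rep E g x y =ᶠ[𝓝 (chartAt E x z)] rep E (f ∘ g) x x' := by
  filter_upwards [(hg.tendsto.comp ((chartAt E x).tendsto_symm hx)).eventually
    ((chartAt E y).open_source.mem_nhds hy)] with w hw
  simp only [Function.comp, rep] at hw ⊢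
  rw [(chartAt E y).left_inv hw]

theorem rep_id {x z : M} (hx : z ∈ (chartAt E x).source) :
    rep E id x x =ᶠ[𝓝 (chartAt E x z)] id := by
  filter_upwards [(chartAt E x).open_target.mem_nhds ((chartAt E x).map_source hx)] with w hw
  exact (chartAt E x).right_inv hw

theorem fderiv_rep_mul (g : Diff E M) {x y z : M} (hx : z ∈ (chartAt E x).source)
    (hy : g z ∈ (chartAt E y).source) :
    fderiv ℝ (rep E g.symm y x) (chartAt E y (g z)) * fderiv ℝ (rep E g x y) (chartAt E x z) = 1 := by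
  have h1 := (((contMDiffAt_iff_rep hx hy).1 (g.contMDiff z)).2.differentiableAt (by simp)).hasFDerivAt
  have h2 := (((contMDiffAt_iff_rep (g := g.symm) (y := x) hy (by simpa using hx)).1
    (g.symm.contMDiff _)).2.differentiableAt (by simp)).hasFDerivAt
  have h3 : rep E g x y (chartAt E x z) = chartAt E y (g z) := by
    rw [rep, (chartAt E x).left_inv hx]
  have h4 := HasFDerivAt.comp _ (h3 ▸ h2) h1
  have h5 : rep E g.symm y x ∘ rep E g x y =ᶠ[𝓝 (chartAt E x z)] id := by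
    refine (rep_comp g.continuous.continuousAt hx hy).trans ?_
    have : (g.symm ∘ g : M → M) = id := funext fun z => g.symm_apply_apply z
    rw [this]
    exact rep_id hx
  have h6 := (h4.congr_of_eventuallyEq h5.symm).unique (hasFDerivAt_id _)
  rw [h3] at h6
  exact h6

theorem isUnit_fderiv_rep (g : Diff E M) {x y z : M} (hx : z ∈ (chartAt E x).source)
    (hy : g z ∈ (chartAt E y).source) : IsUnit (fderiv ℝ (rep E g x y) (chartAt E x z)) := by
  have h1 := fderiv_rep_mul g.symm (x := y) (y := x) hy (by simpa using hx)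
  rw [g.symm_apply_apply] at h1
  exact ⟨⟨_, _, h1, fderiv_rep_mul g hx hy⟩, rfl⟩

theorem curry_jet (g : M → M) (x y z : M) : continuousMultilinearCurryFin1 ℝ E E (jet E g x y 1 z) =
    fderiv ℝ (rep E g x y) (chartAt E x z) := by
  ext v
  simp [jet, iteratedFDeriv_one_apply]

theorem norm_jet_zero (f g : M → M) {x y z : M} (hx : z ∈ (chartAt E x).source) :
    ‖jet E f x y 0 z - jet E g x y 0 z‖ = ‖chartAt E y (f z) - chartAt E y (g z)‖ := by
  rw [jet, jet, iteratedFDeriv_zero_eq_comp, iteratedFDeriv_zero_eq_comp, Function.comp,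
    Function.comp, ← map_sub, LinearIsometryEquiv.norm_map, rep, rep, (chartAt E x).left_inv hx]

variable (E) in
/-- Chart data that are admissible for `g`. -/
def Adm (g : M → M) (d : M × M × Set M) : Prop :=
  IsCompact d.2.2 ∧ d.2.2 ⊆ (chartAt E d.1).source ∧
    (fun z => g z) '' d.2.2 ⊆ (chartAt E d.2.1).source

/-- Closed version of the basic neighbourhoods. -/
def Nbar (g : Diff E M) (s : Set (M × M × Set M)) (k : ℕ) (ε : ℝ) : Set (Diff E M) :=
  {f | ∀ d ∈ s, ∀ z ∈ interior d.2.2, f z ∈ (chartAt E d.2.1).source ∧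
    ∀ j ≤ k, ‖jet E f d.1 d.2.1 j z - jet E g d.1 d.2.1 j z‖ ≤ ε}

theorem Nbar.mono {g : Diff E M} {s s' : Set (M × M × Set M)} {k k' : ℕ} {ε : ℝ} (hs : s ⊆ s')
    (hk : k ≤ k') : Nbar g s' k' ε ⊆ Nbar g s k ε :=
  fun _ hf d hd z hz => ⟨(hf d (hs hd) z hz).1, fun j hj => (hf d (hs hd) z hz).2 j (hj.trans hk)⟩

theorem exists_Nbar {U : Set (Diff E M)} (hU : IsOpen[tau E M] U) : ∀ g ∈ U,
    ∃ s : Set (M × M × Set M), s.Finite ∧ (∀ d ∈ s, Adm E g d) ∧
      ∃ k, ∀ᶠ ε in 𝓝[>] (0 : ℝ), Nbar g s k ε ⊆ U := by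
  have hU' : GenerateOpen _ U := hU
  clear hU
  induction hU' with
  | basic S hS =>
    obtain ⟨f, x, y, K, k, ε, hK, hx, hy, -, rfl⟩ := hS
    intro g hg
    obtain ⟨K', h1, h2, h3⟩ := exists_compact_between hK
      ((chartAt E x).open_source.inter ((chartAt E y).open_source.preimage g.continuous))
      (subset_inter hx (image_subset_iff.1 hg.1))
    refine ⟨{(x, y, K')}, finite_singleton _, ?_, k, ?_⟩
    · rintro _ rfl
      exact ⟨h1, h3.trans inter_subset_left, image_subset_iff.2 (h3.trans inter_subset_right)⟩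
    · have : ∀ j ∈ Iic k, ∀ᶠ δ in 𝓝[>] (0 : ℝ), ∀ z ∈ K, ∀ w,
          ‖w - (jet E g x y j z - jet E f x y j z)‖ ≤ δ → w ∈ Metric.ball 0 ε := fun j hj =>
        eventually_near hK (fun z hz =>
          (continuousAt_jet g.contMDiff (hx hz) (hg.1 ⟨z, hz, rfl⟩) j).sub
            (continuousAt_jet f.contMDiff (hx hz) (hy ⟨z, hz, rfl⟩) j)) Metric.isOpen_ball
          fun z hz => mem_ball_zero_iff.2 (hg.2 j hj z hz)
      filter_upwards [(eventually_all_finite (finite_Iic k)).2 this] with δ hδ g' hg'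
      refine ⟨by rintro _ ⟨z, hz, rfl⟩; exact (hg' _ rfl z (h2 hz)).1, fun j hj z hz => ?_⟩
      exact mem_ball_zero_iff.1 (hδ j hj z hz _ (by
        rw [sub_sub_sub_cancel_right]; exact (hg' _ rfl z (h2 hz)).2 j hj))
  | univ => exact fun g _ => ⟨∅, finite_empty, by simp, 0, by simp⟩
  | inter U V _ _ ihU ihV =>
    intro g hg
    obtain ⟨s, h1, h2, k, h3⟩ := ihU g hg.1
    obtain ⟨s', h1', h2', k', h3'⟩ := ihV g hg.2
    refine ⟨s ∪ s', h1.union h1', fun d hd => hd.elim (h2 d) (h2' d), max k k', ?_⟩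
    filter_upwards [h3, h3'] with ε a b
    exact subset_inter ((Nbar.mono subset_union_left (le_max_left _ _)).trans a)
      ((Nbar.mono subset_union_right (le_max_right _ _)).trans b)
  | sUnion S _ ih =>
    rintro g ⟨U, hU, hg⟩
    obtain ⟨s, h1, h2, k, h3⟩ := ih U hU g hg
    exact ⟨s, h1, h2, k, h3.mono fun ε a => a.trans (subset_sUnion_of_mem hU)⟩

variable (E M) in
/-- A position in the construction. -/
structure St : Type where
  g : Diff E M
  s : Set (M × M × Set M)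
  k : ℕ
  ε : ℝ
  η : ℝ
  fin : s.Finite
  adm : ∀ d ∈ s, Adm E g d
  pos : 0 < ε

/-- The open neighbourhood attached to a position. -/
def St.N (σ : St E M) : Set (Diff E M) := ⋂ d ∈ σ.s, Sub σ.g d.1 d.2.1 d.2.2 σ.k σ.ε

/-- The closed neighbourhood attached to a position. -/
def St.Nb (σ : St E M) : Set (Diff E M) := Nbar σ.g σ.s σ.k σ.ε

theorem St.open_N (σ : St E M) : IsOpen[tau E M] σ.N :=
  @Set.Finite.isOpen_biInter _ _ (tau E M) _ _ σ.fin fun d hd =>
    (sub_mem_nhds σ.k (σ.adm d hd).1 (σ.adm d hd).2.1 (σ.adm d hd).2.2 σ.pos).1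

theorem St.mem_N (σ : St E M) : σ.g ∈ σ.N :=
  mem_iInter₂.2 fun d hd =>
    (sub_mem_nhds σ.k (σ.adm d hd).1 (σ.adm d hd).2.1 (σ.adm d hd).2.2 σ.pos).2

theorem St.N_subset (σ : St E M) : σ.N ⊆ σ.Nb := fun _ hf d hd z hz =>
  ⟨(mem_iInter₂.1 hf d hd).1 ⟨z, interior_subset hz, rfl⟩,
    fun j hj => ((mem_iInter₂.1 hf d hd).2 j hj z (interior_subset hz)).le⟩

/-- The requirements at stage `n`. -/
structure Good (n : ℕ) (σ : St E M) : Prop where
  k_ge : n + 1 ≤ σ.k
  ε_le : σ.ε ≤ 1 / ((n : ℝ) + 1)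
  η_le : σ.η ≤ 1 / ((n : ℝ) + 1)
  tgt : ∀ d ∈ σ.s, ∀ z ∈ d.2.2, ∀ w, ‖w - chartAt E d.2.1 (σ.g z)‖ ≤ σ.ε →
    w ∈ (chartAt E d.2.1).target
  cover : ∀ z, ∃ d ∈ σ.s, z ∈ interior d.2.2
  unit : ∀ d ∈ σ.s, ∀ z ∈ d.2.2, ∀ L, ‖L - jet E σ.g d.1 d.2.1 1 z‖ ≤ σ.ε →
    IsUnit (continuousMultilinearCurryFin1 ℝ E E L)
  sep : ∀ a b, 1 / ((n : ℝ) + 1) ≤ dist a b → 2 * σ.η < dist (σ.g a) (σ.g b)
  near : ∀ f ∈ σ.N, ∀ z, dist (f z) (σ.g z) < σ.η

theorem exists_good (n : ℕ) {U : Set (Diff E M)} (hU : IsOpen[tau E M] U) {g : Diff E M}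
    (hg : g ∈ U) {s₀ : Set (M × M × Set M)} (hs₀ : s₀.Finite) (hs₀' : ∀ d ∈ s₀, Adm E g d) :
    ∃ σ : St E M, s₀ ⊆ σ.s ∧ σ.Nb ⊆ U ∧ Good n σ := by
  letI := tau E M
  haveI : CompleteSpace E := FiniteDimensional.complete ℝ E
  have hn : (0 : ℝ) < 1 / ((n : ℝ) + 1) := Nat.one_div_pos_of_nat
  obtain ⟨η, hη, hη1, hη2⟩ : ∃ η > 0, η ≤ 1 / ((n : ℝ) + 1) ∧
      ∀ a b, 1 / ((n : ℝ) + 1) ≤ dist a b → 2 * η < dist (g a) (g b) := by
    obtain ⟨δ, hδ, h1⟩ := Metric.uniformContinuous_iff.1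
      (CompactSpace.uniformContinuous_of_continuous g.symm.continuous) _ hn
    refine ⟨min (δ / 3) (1 / ((n : ℝ) + 1)), lt_min (by linarith) hn, min_le_right _ _,
      fun a b hab => ?_⟩
    by_contra h2
    have h3 := h1 (a := g a) (b := g b) (by linarith [min_le_left (δ / 3) (1 / ((n : ℝ) + 1))])
    rw [g.symm_apply_apply, g.symm_apply_apply] at h3
    exact h3.not_ge hab
  have h1 : ∀ᶠ f : Diff E M in 𝓝 g, ∀ z ∈ (univ : Set M), dist (f z) (g z) < η := by
    refine isCompact_univ.eventually_forall_of_forall_eventually fun z _ => ?_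
    exact ((continuous_eval_tau (E := E) (M := M)).dist
      (g.continuous.comp continuous_snd)).continuousAt.eventually (gt_mem_nhds (by simpa using hη))
  obtain ⟨V, hV, hV1, hV2⟩ := mem_nhds_iff.1 h1
  obtain ⟨s₁, a1, a2, k, a3⟩ := exists_Nbar (hU.inter hV1) g ⟨hg, hV2⟩
  have h2 : ∀ z : M, ∃ K ∈ 𝓝 z, K ⊆ (chartAt E z).source ∩ g ⁻¹' (chartAt E (g z)).source ∧
      IsCompact K := fun z => local_compact_nhds (inter_mem (chart_source_mem_nhds E z)
    (g.continuous.continuousAt.preimage_mem_nhds (chart_source_mem_nhds E (g z))))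
  choose K hK1 hK2 hK3 using h2
  obtain ⟨T, hT⟩ := finite_cover_nhds_interior hK1
  let s := s₀ ∪ s₁ ∪ (fun z => (z, g z, K z)) '' (T : Set M)
  have hfin : s.Finite := (hs₀.union a1).union (T.finite_toSet.image _)
  have hadm : ∀ d ∈ s, Adm E g d := by
    rintro d ((hd | hd) | ⟨z, -, rfl⟩)
    · exact hs₀' d hd
    · exact a2 d hd
    · exact ⟨hK3 z, (hK2 z).trans inter_subset_left,
        image_subset_iff.2 ((hK2 z).trans inter_subset_right)⟩
  have e1 : ∀ᶠ ε in 𝓝[>] (0 : ℝ), ∀ d ∈ s, ∀ z ∈ d.2.2, ∀ w,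
      ‖w - chartAt E d.2.1 (g z)‖ ≤ ε → w ∈ (chartAt E d.2.1).target :=
    (eventually_all_finite hfin).2 fun d hd => eventually_near (hadm d hd).1
      (fun z hz => ((chartAt E d.2.1).continuousAt ((hadm d hd).2.2 ⟨z, hz, rfl⟩)).comp
        g.continuous.continuousAt) (chartAt E d.2.1).open_target
      fun z hz => (chartAt E d.2.1).map_source ((hadm d hd).2.2 ⟨z, hz, rfl⟩)
  have e2 : ∀ᶠ ε in 𝓝[>] (0 : ℝ), ∀ d ∈ s, ∀ z ∈ d.2.2, ∀ L, ‖L - jet E g d.1 d.2.1 1 z‖ ≤ ε →
      L ∈ continuousMultilinearCurryFin1 ℝ E E ⁻¹' {A | IsUnit A} :=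
    (eventually_all_finite hfin).2 fun d hd => eventually_near (hadm d hd).1
      (fun z hz => continuousAt_jet g.contMDiff ((hadm d hd).2.1 hz)
        ((hadm d hd).2.2 ⟨z, hz, rfl⟩) 1)
      (Units.isOpen.preimage (continuousMultilinearCurryFin1 ℝ E E).continuous)
      fun z hz => by
        rw [mem_preimage, curry_jet]
        exact isUnit_fderiv_rep g ((hadm d hd).2.1 hz) ((hadm d hd).2.2 ⟨z, hz, rfl⟩)
  obtain ⟨ε, ⟨b1, b2⟩, b3, b4⟩ := (((e1.and e2).and (a3.and (Ioc_mem_nhdsGT hn)))).exists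
  have b5 : Nbar g s (max k (n + 1)) ε ⊆ U ∩ V :=
    (Nbar.mono (subset_union_right.trans subset_union_left) (le_max_left _ _)).trans b3
  refine ⟨⟨g, s, max k (n + 1), ε, η, hfin, hadm, b4.1⟩,
    subset_union_left.trans subset_union_left, b5.trans inter_subset_left,
    le_max_right _ _, b4.2, hη1, b1, fun z => ?_, b2, hη2,
    fun f hf z => hV (b5 (St.N_subset _ hf)).2 z trivial⟩
  obtain ⟨x, hx, h3⟩ := mem_iUnion₂.1 (hT.symm ▸ mem_univ z)
  exact ⟨_, Or.inr ⟨x, hx, rfl⟩, h3⟩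

theorem exists_lim (σ : ℕ → St E M) (hg : ∀ n, Good n (σ n)) (hs : ∀ n, (σ n).s ⊆ (σ (n + 1)).s)
    (hN : ∀ n, (σ (n + 1)).Nb ⊆ (σ n).N) : ∃ f : Diff E M, ∀ n, f ∈ (σ n).Nb := by
  haveI : CompleteSpace E := FiniteDimensional.complete ℝ E
  haveI : ProperSpace E := FiniteDimensional.proper_real E
  have hanti : Antitone fun n => (σ n).N :=
    antitone_nat_of_succ_le fun n => (St.N_subset _).trans (hN n)
  have hmono : Monotone fun n => (σ n).s := monotone_nat_of_le_succ hs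
  have hmem : ∀ {n m}, n ≤ m → (σ m).g ∈ (σ n).N := fun h => hanti h (St.mem_N _)
  have hsub : ∀ {n m}, n ≤ m → ∀ d ∈ (σ n).s,
      (σ m).g ∈ Sub (σ n).g d.1 d.2.1 d.2.2 (σ n).k (σ n).ε :=
    fun h d hd => mem_iInter₂.1 (hmem h) d hd
  have hc : ∀ z, CauchySeq fun m => (σ m).g z := fun z => Metric.cauchySeq_iff'.2 fun ε hε => by
    obtain ⟨n, hn⟩ := exists_nat_one_div_lt hε
    exact ⟨n, fun m hm => ((hg n).near _ (hmem hm) z).trans ((hg n).η_le.trans_lt hn)⟩
  choose f hf using fun z => cauchySeq_tendsto_of_complete (hc z)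
  have hd : ∀ n z, dist (f z) ((σ n).g z) ≤ (σ n).η := fun n z =>
    le_of_tendsto ((hf z).dist tendsto_const_nhds)
      ((eventually_ge_atTop n).mono fun m hm => ((hg n).near _ (hmem hm) z).le)
  have hcont : Continuous f := by
    refine TendstoUniformly.continuous (F := fun m => (σ m).g) (p := atTop)
      (Metric.tendstoUniformly_iff.2 fun ε hε => ?_)
      (Eventually.of_forall fun m => (σ m).g.continuous).frequently
    obtain ⟨n, hn⟩ := exists_nat_one_div_lt hε
    filter_upwards [eventually_ge_atTop n] with m hm z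
    exact (hd m z).trans_lt ((hg m).η_le.trans_lt ((Nat.one_div_le_one_div hm).trans_lt hn))
  have hinj : Function.Injective f := fun a b hab => by
    by_contra h
    obtain ⟨n, hn⟩ := exists_nat_one_div_lt (dist_pos.2 h)
    have h1 := (hg n).sep a b hn.le
    have h2 := dist_triangle_left ((σ n).g a) ((σ n).g b) (f b)
    linarith [hd n b, hab ▸ hd n a]
  have hsurj : Function.Surjective f := fun p => by
    refine (isCompact_range hcont).isClosed.closure_subset
      (Metric.mem_closure_iff.2 fun ε hε => ?_)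
    obtain ⟨n, hn⟩ := exists_nat_one_div_lt hε
    refine ⟨_, ⟨(σ n).g.symm p, rfl⟩, ?_⟩
    have := hd n ((σ n).g.symm p)
    rw [(σ n).g.apply_symm_apply, dist_comm] at this
    exact this.trans_lt ((hg n).η_le.trans_lt hn)
  have hsrc : ∀ n, ∀ d ∈ (σ n).s, ∀ z ∈ d.2.2, f z ∈ (chartAt E d.2.1).source := by
    intro n d hd z hz
    have h1 : Metric.closedBall (chartAt E d.2.1 ((σ n).g z)) (σ n).ε ⊆
        (chartAt E d.2.1).target := fun w hw => (hg n).tgt d hd z hz w (mem_closedBall_iff_norm.1 hw)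
    have h2 := ((isCompact_closedBall _ _).image_of_continuousOn
      ((chartAt E d.2.1).continuousOn_symm.mono h1)).isClosed
    obtain ⟨w, hw, h3⟩ := h2.mem_of_tendsto (hf z) ((eventually_ge_atTop n).mono fun m hm =>
      ⟨chartAt E d.2.1 ((σ m).g z), mem_closedBall_iff_norm.2 (by
        rw [← norm_jet_zero _ _ (((σ n).adm d hd).2.1 hz)]
        exact ((hsub hm d hd).2 0 (Nat.zero_le _) z hz).le),
        (chartAt E d.2.1).left_inv ((hsub hm d hd).1 ⟨z, hz, rfl⟩)⟩)
    exact h3 ▸ (chartAt E d.2.1).map_target (h1 hw)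
  have hkey : ∀ n, ∀ d ∈ (σ n).s, ∀ z ∈ interior d.2.2,
      ContDiffAt ℝ ∞ (rep E f d.1 d.2.1) (chartAt E d.1 z) ∧
        ∀ j ≤ (σ n).k, ‖jet E f d.1 d.2.1 j z - jet E (σ n).g d.1 d.2.1 j z‖ ≤ (σ n).ε := by
    intro n d hd z hz
    have hx := ((σ n).adm d hd).2.1
    obtain ⟨h1, h2⟩ := smooth_limit (Ω := chartAt E d.1 '' interior d.2.2)
      ((chartAt E d.1).isOpen_image_of_subset_source isOpen_interior (interior_subset.trans hx))
      (u := fun m => rep E (σ (m + n)).g d.1 d.2.1) (v := rep E f d.1 d.2.1) (by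
        rintro m _ ⟨z, hz, rfl⟩
        exact ((contMDiffAt_iff_rep (hx (interior_subset hz)) ((hsub (Nat.le_add_left n m) d hd).1
          ⟨z, interior_subset hz, rfl⟩)).1 ((σ (m + n)).g.contMDiff z)).2) (by
        intro j
        refine Metric.uniformCauchySeqOn_iff.2 fun ε hε => ?_
        obtain ⟨n', hn'⟩ := exists_nat_one_div_lt (half_pos hε)
        refine ⟨n' + j, ?_⟩
        rintro m hm m' hm' _ ⟨z, hz, rfl⟩
        have h3 : (σ (n' + j + n)).ε < ε / 2 := (hg _).ε_le.trans_lt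
          ((Nat.one_div_le_one_div (by omega)).trans_lt hn')
        have h4 : j ≤ (σ (n' + j + n)).k := le_trans (by omega) (hg _).k_ge
        have h5 := (hsub (Nat.add_le_add_right hm n) d (hmono (Nat.le_add_left n _) hd)).2 j h4 z
          (interior_subset hz)
        have h6 := (hsub (Nat.add_le_add_right hm' n) d (hmono (Nat.le_add_left n _) hd)).2 j h4 z
          (interior_subset hz)
        rw [← dist_eq_norm] at h5 h6
        exact (dist_triangle_right _ _ _).trans_lt (by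
          have := add_lt_add (h5.trans h3) (h6.trans h3)
          rwa [add_halves] at this)) (by
        rintro _ ⟨z, hz, rfl⟩
        simp only [rep, (chartAt E d.1).left_inv (hx (interior_subset hz))]
        exact ((chartAt E d.2.1).continuousAt (hsrc n d hd z (interior_subset hz))).tendsto.comp
          ((hf z).comp (tendsto_add_atTop_nat n))) _ ⟨z, hz, rfl⟩
    exact ⟨h1, fun j hj => le_of_tendsto' ((h2 j).sub_const _).norm fun m =>
      ((hsub (Nat.le_add_left n m) d hd).2 j hj z (interior_subset hz)).le⟩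
  let h : M ≃ₜ M := Continuous.homeoOfEquivCompactToT2 (f := Equiv.ofBijective f ⟨hinj, hsurj⟩) hcont
  refine ⟨⟨h.toEquiv, fun z => ?_, fun p => ?_⟩, fun n d hd z hz =>
    ⟨hsrc n d hd z (interior_subset hz), (hkey n d hd z hz).2⟩⟩
  · obtain ⟨d, hd, hz⟩ := (hg 0).cover z
    exact (contMDiffAt_iff_rep (((σ 0).adm d hd).2.1 (interior_subset hz))
      (hsrc 0 d hd z (interior_subset hz))).2 ⟨hcont.continuousAt, (hkey 0 d hd z hz).1⟩
  · obtain ⟨z, rfl⟩ := h.surjective p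
    obtain ⟨d, hd, hz⟩ := (hg 0).cover z
    have hx := ((σ 0).adm d hd).2.1 (interior_subset hz)
    have hy : h z ∈ (chartAt E d.2.1).source := hsrc 0 d hd z (interior_subset hz)
    refine (contMDiffAt_iff_rep (g := h.symm) (y := d.1) hy (by simpa using hx)).2
      ⟨h.symm.continuous.continuousAt, ?_⟩
    obtain ⟨u, hu⟩ := (hg 0).unit d hd z (interior_subset hz) _
      ((hkey 0 d hd z hz).2 1 (hg 0).k_ge)
    rw [curry_jet] at hu
    let F := (chartAt E d.1).symm ≫ₕ (h.toOpenPartialHomeomorph ≫ₕ chartAt E d.2.1)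
    have h1 : chartAt E d.1 z ∈ F.source := by simp [F, hx, hy]
    have h2 : F (chartAt E d.1 z) = chartAt E d.2.1 (h z) := by simp [F, hx]
    have h3 : F.symm (chartAt E d.2.1 (h z)) = chartAt E d.1 z := by rw [← h2, F.left_inv h1]
    refine F.contDiffAt_symm (f₀' := ContinuousLinearEquiv.ofUnit u) (h2 ▸ F.map_source h1) ?_ ?_
    · rw [h3]
      have h4 := ((hkey 0 d hd z hz).1.differentiableAt (by simp)).hasFDerivAt
      rw [← hu] at h4
      exact h4
    · rw [h3]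
      exact (hkey 0 d hd z hz).1

theorem baire_tau : @BaireSpace _ (tau E M) := by
  letI := tau E M
  refine ⟨fun U hU hU' => dense_iff_inter_open.2 fun O hO ⟨g, hg⟩ => ?_⟩
  obtain ⟨σ₀, -, h1, h2⟩ := exists_good 0 hO hg finite_empty (by simp)
  have step : ∀ (n : ℕ) (σ : St E M), ∃ σ' : St E M, σ.s ⊆ σ'.s ∧ σ'.Nb ⊆ σ.N ∩ U n ∧
      Good (n + 1) σ' := by
    intro n σ
    obtain ⟨f, hf⟩ := (hU' n).inter_open_nonempty _ σ.open_N ⟨_, σ.mem_N⟩
    exact exists_good (n + 1) (σ.open_N.inter (hU n)) hf σ.fin fun d hd =>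
      ⟨(σ.adm d hd).1, (σ.adm d hd).2.1, (mem_iInter₂.1 hf.1 d hd).1⟩
  choose F hF using step
  let σ : ℕ → St E M := fun n => Nat.rec σ₀ F n
  obtain ⟨f, hf⟩ := exists_lim σ (fun n => by
    cases n with
    | zero => exact h2
    | succ n => exact (hF n (σ n)).2.2) (fun n => (hF n (σ n)).1)
    fun n => (hF n (σ n)).2.1.trans inter_subset_left
  exact ⟨f, h1 (hf 0), mem_iInter.2 fun n => ((hF n (σ n)).2.1 (hf (n + 1))).2⟩

end Pool.Agent.Lib.MP_8468cd_lc
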