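import Mathlib

/-!
Calculus lemmas: jets of families of maps, and uniform limits of smooth maps.
-/

set_option autoImplicit false
set_option linter.unusedSectionVars false

namespace Pool.Agent.Lib.MP_8468cd_lc

open Set Filter Topology
open scoped ContDiff

variable {E : Type} [NormedAddCommGroup E] [NormedSpace ℝ E]

/-- The jets of the maps `u p` at the points `a p` depend continuously on `p` at `p₀`. -/
def JetCont {P : Type} [TopologicalSpace P] (u : P → E → E) (a : P → E) (p₀ : P) : Prop :=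
  (∀ᶠ p in 𝓝 p₀, ContDiffAt ℝ ∞ (u p) (a p)) ∧
    ∀ j : ℕ, ContinuousAt (fun p => iteratedFDeriv ℝ j (u p) (a p)) p₀

section

variable {P : Type} [TopologicalSpace P] {u v : P → E → E} {a b : P → E} {p₀ : P}

theorem JetCont.comp (hv : JetCont v (fun p => u p (a p)) p₀) (hu : JetCont u a p₀) :
    JetCont (fun p => v p ∘ u p) a p₀ := by
  refine ⟨?_, fun j => ?_⟩
  · filter_upwards [hv.1, hu.1] with p h1 h2 using h1.comp _ h2
  · have h1 : (fun p => ∑ c : OrderedFinpartition j, c.compAlongOrderedFinpartitionL ℝ E E E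
        (iteratedFDeriv ℝ c.length (v p) (u p (a p)))
        (fun i => iteratedFDeriv ℝ (c.partSize i) (u p) (a p))) =ᶠ[𝓝 p₀]
        fun p => iteratedFDeriv ℝ j (v p ∘ u p) (a p) := by
      filter_upwards [hv.1, hu.1] with p h1 h2
      rw [iteratedFDeriv_comp h1 h2 (by exact_mod_cast le_top)]
      rfl
    refine ContinuousAt.congr ?_ h1
    refine tendsto_finsetSum _ fun c _ => ?_
    have h2 : ContinuousAt (fun p => c.compAlongOrderedFinpartitionL ℝ E E E
        (iteratedFDeriv ℝ c.length (v p) (u p (a p)))) p₀ :=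
      (c.compAlongOrderedFinpartitionL ℝ E E E).continuous.continuousAt.comp (hv.2 _)
    have h3 : ContinuousAt (fun p => fun i => iteratedFDeriv ℝ (c.partSize i) (u p) (a p)) p₀ :=
      continuousAt_pi.2 fun i => hu.2 _
    exact h2.eval h3

theorem JetCont.const {T : E → E} (ha : ContinuousAt a p₀)
    (hT : ∀ᶠ w in 𝓝 (a p₀), ContDiffAt ℝ ∞ T w) : JetCont (fun _ => T) a p₀ :=
  ⟨ha.eventually hT, fun _ =>
    (hT.self_of_nhds.continuousAt_iteratedFDeriv (by exact_mod_cast le_top)).comp ha⟩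

theorem JetCont.congr (hu : JetCont u a p₀) (hab : ∀ᶠ p in 𝓝 p₀, a p = b p)
    (huv : ∀ᶠ p in 𝓝 p₀, u p =ᶠ[𝓝 (a p)] v p) : JetCont v b p₀ := by
  refine ⟨?_, fun j => (hu.2 j).congr ?_⟩
  · filter_upwards [hu.1, hab, huv] with p h1 h2 h3
    exact h2 ▸ h1.congr_of_eventuallyEq h3.symm
  · filter_upwards [hab, huv] with p h2 h3
    rw [← h2, (h3.iteratedFDeriv ℝ j).self_of_nhds]

theorem continuousAt_of_jet_zero
    (h : ContinuousAt (fun p => iteratedFDeriv ℝ 0 (u p) (a p)) p₀) :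
    ContinuousAt (fun p => u p (a p)) p₀ :=
  h.eval (g := fun _ _ => 0) continuousAt_const

end

theorem smooth_limit [CompleteSpace E] {Ω : Set E} (hΩ : IsOpen Ω) {u : ℕ → E → E} {v : E → E}
    (hu : ∀ m, ∀ w ∈ Ω, ContDiffAt ℝ ∞ (u m) w)
    (hc : ∀ j, UniformCauchySeqOn (fun m => iteratedFDeriv ℝ j (u m)) atTop Ω)
    (hv : ∀ w ∈ Ω, Tendsto (fun m => u m w) atTop (𝓝 (v w))) :
    ∀ w ∈ Ω, ContDiffAt ℝ ∞ v w ∧
      ∀ j, Tendsto (fun m => iteratedFDeriv ℝ j (u m) w) atTop (𝓝 (iteratedFDeriv ℝ j v w)) := by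
  let p : E → FormalMultilinearSeries ℝ E E := fun w j =>
    limUnder atTop fun m => iteratedFDeriv ℝ j (u m) w
  have h1 : ∀ j, ∀ w ∈ Ω, Tendsto (fun m => iteratedFDeriv ℝ j (u m) w) atTop (𝓝 (p w j)) :=
    fun j w hw => ((hc j).cauchySeq hw).tendsto_limUnder
  have h2 : ∀ j, TendstoUniformlyOn (fun m => iteratedFDeriv ℝ j (u m)) (fun w => p w j) atTop Ω :=
    fun j => (hc j).tendstoUniformlyOn_of_tendsto (h1 j)
  have h3 : ∀ j, ∀ w ∈ Ω, HasFDerivAt (fun w => p w j) (p w (j + 1)).curryLeft w := by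
    intro j w hw
    refine hasFDerivAt_of_tendstoUniformlyOn (l := atTop) hΩ
      (f' := fun m w => (iteratedFDeriv ℝ (j + 1) (u m) w).curryLeft)
      (g' := fun w => (p w (j + 1)).curryLeft) ?_ (fun m x hx => ?_) (h1 j) hw
    · exact (continuousMultilinearCurryLeftEquiv ℝ (fun _ : Fin (j + 1) => E)
        E).isometry.uniformContinuous.comp_tendstoUniformlyOn (h2 (j + 1))
    · exact ((hu m x hx).differentiableAt_iteratedFDeriv
        (by exact_mod_cast ENat.natCast_lt_top j)).hasFDerivAt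
  have h4 : HasFTaylorSeriesUpToOn ∞ v p Ω := by
    refine ⟨fun w hw => ?_, fun j _ w hw => (h3 j w hw).hasFDerivWithinAt,
      fun j _ w hw => (h3 j w hw).continuousAt.continuousWithinAt⟩
    refine tendsto_nhds_unique ?_ (hv w hw)
    exact ((continuous_eval_const (fun _ : Fin 0 => (0 : E))).tendsto _).comp (h1 0 w hw)
  intro w hw
  refine ⟨h4.contDiffOn.contDiffAt (hΩ.mem_nhds hw), fun j => ?_⟩
  rw [← iteratedFDerivWithin_of_isOpen j hΩ hw,
    ← h4.eq_iteratedFDerivWithin_of_uniqueDiffOn (by exact_mod_cast le_top) hΩ.uniqueDiffOn hw]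
  exact h1 j w hw

end Pool.Agent.Lib.MP_8468cd_lc
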