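import Pool.Agent.Lib.MP_8468cd_lc.Scott

/-!
The homeomorphism group of a compact metric space is a Polish group acting by conjugation.
-/

set_option autoImplicit false
set_option linter.unusedSectionVars false
set_option linter.style.haveILetI false

namespace Pool.Agent.Lib.MP_8468cd_lc

open Set Filter Topology TopologicalSpace

/-- Continuous self maps as a monoid under composition. -/
def End (M : Type) [TopologicalSpace M] : Type := C(M, M)

variable {M : Type} [MetricSpace M] [CompactSpace M]

instance : Monoid (End M) where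
  mul f g := ContinuousMap.comp f g
  one := ContinuousMap.id M
  mul_assoc _ _ _ := rfl
  one_mul _ := rfl
  mul_one _ := rfl

instance : TopologicalSpace (End M) := inferInstanceAs (TopologicalSpace C(M, M))

instance : ContinuousMul (End M) :=
  ⟨ContinuousMap.continuous_comp'.comp (continuous_swap (X := C(M, M)) (Y := C(M, M)))⟩

instance : PolishSpace (End M) := inferInstanceAs (PolishSpace C(M, M))

instance : PolishSpace (End M)ᵐᵒᵖ := MulOpposite.opHomeomorph.symm.isClosedEmbedding.polishSpace

instance : PolishSpace (End M)ˣ := Units.isClosedEmbedding_embedProduct.polishSpace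

/-- The conjugation action. -/
@[reducible] def conjAct : MulAction (End M)ˣ C(M, M) where
  smul u f := (u.val * (show End M from f) * u⁻¹.val : End M)
  one_smul _ := rfl
  mul_smul _ _ _ := rfl

theorem generic_conj {Y : Type} [TopologicalSpace Y] [BaireSpace Y] [SeparableSpace Y]
    {f : Y → C(M, M)} (hf : Continuous f) : ∃ D : Set Y, IsGδ D ∧ Dense D ∧
      @MeasurableSet _ (borel (Y × Y))
        {p | p.1 ∈ D ∧ p.2 ∈ D ∧ ∃ h : M ≃ₜ M, ∀ z, h (f p.1 z) = f p.2 (h z)} := by
  letI := conjAct (M := M)
  haveI : ContinuousSMul (End M)ˣ C(M, M) := ⟨by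
    change Continuous fun p : (End M)ˣ × End M => p.1.val * p.2 * p.1⁻¹.val
    exact ((Units.continuous_val.comp continuous_fst).mul continuous_snd).mul
      (Units.continuous_coe_inv.comp continuous_fst)⟩
  obtain ⟨D, h1, h2, h3⟩ := generic_borel (G := (End M)ˣ) (X := C(M, M)) (f := f) hf
  refine ⟨D, h1, h2, ?_⟩
  have : {p : Y × Y | p.1 ∈ D ∧ p.2 ∈ D ∧ ∃ h : M ≃ₜ M, ∀ z, h (f p.1 z) = f p.2 (h z)} =
      {p | p.1 ∈ D ∧ p.2 ∈ D ∧ ∃ g : (End M)ˣ, g • f p.1 = f p.2} := by
    ext p
    refine and_congr_right fun _ => and_congr_right fun _ => ⟨?_, ?_⟩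
    · rintro ⟨h, hh⟩
      refine ⟨⟨(h : C(M, M)), (h.symm : C(M, M)), ContinuousMap.ext fun z => h.apply_symm_apply z,
        ContinuousMap.ext fun z => h.symm_apply_apply z⟩, ContinuousMap.ext fun z => ?_⟩
      change h (f p.1 (h.symm z)) = f p.2 z
      rw [hh, h.apply_symm_apply]
    · rintro ⟨g, hg⟩
      let a : C(M, M) := g.val
      let b : C(M, M) := g.inv
      have e1 : ∀ z, a (b z) = z := fun z => ContinuousMap.congr_fun g.val_inv z
      have e2 : ∀ z, b (a z) = z := fun z => ContinuousMap.congr_fun g.inv_val z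
      refine ⟨⟨⟨a, b, e2, e1⟩, a.continuous, b.continuous⟩, fun z => ?_⟩
      have h4 : a (f p.1 (b (a z))) = f p.2 (a z) := ContinuousMap.congr_fun hg (a z)
      rw [e2] at h4
      exact h4
  rw [this]
  exact h3

end Pool.Agent.Lib.MP_8468cd_lc
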