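import Pool.Agent.Lib.MP_8468cd_lc.Calc

/-!
The smooth topology on the diffeomorphism group: evaluation is continuous and the space is
separable.
-/

set_option autoImplicit false
set_option linter.unusedSectionVars false
set_option linter.style.haveILetI false

namespace Pool.Agent.Lib.MP_8468cd_lc

open Set Filter Topology TopologicalSpace
open scoped ContDiff Manifold

variable {E : Type} [NormedAddCommGroup E] [NormedSpace ℝ E]
  {M : Type} [TopologicalSpace M] [ChartedSpace E M] [IsManifold 𝓘(ℝ, E) ∞ M]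

variable (E) in
/-- The map `g` read in the charts at `x` and `y`. -/
def rep (g : M → M) (x y : M) : E → E := fun w => chartAt E y (g ((chartAt E x).symm w))

variable (E) in
/-- The derivatives of `g` read in the charts at `x` and `y`. -/
noncomputable def jet (g : M → M) (x y : M) (j : ℕ) (z : M) : E [×j]→L[ℝ] E :=
  iteratedFDeriv ℝ j (rep E g x y) (chartAt E x z)

theorem contMDiffAt_iff_rep {g : M → M} {x y z : M} (hx : z ∈ (chartAt E x).source)
    (hy : g z ∈ (chartAt E y).source) : ContMDiffAt 𝓘(ℝ, E) 𝓘(ℝ, E) ∞ g z ↔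
      ContinuousAt g z ∧ ContDiffAt ℝ ∞ (rep E g x y) (chartAt E x z) := by
  rw [contMDiffAt_iff_of_mem_source hx hy, modelWithCornersSelf_coe, range_id,
    contDiffWithinAt_univ]
  rfl

theorem eventually_transition {x x' z : M} (hx : z ∈ (chartAt E x).source)
    (hx' : z ∈ (chartAt E x').source) :
    ∀ᶠ w in 𝓝 (chartAt E x z), ContDiffAt ℝ ∞ (rep E id x x') w := by
  have h1 := (chartAt E x).open_target.mem_nhds ((chartAt E x).map_source hx)
  have h2 : ∀ᶠ w in 𝓝 (chartAt E x z), (chartAt E x).symm w ∈ (chartAt E x').source :=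
    ((chartAt E x).tendsto_symm hx).eventually ((chartAt E x').open_source.mem_nhds hx')
  filter_upwards [h1, h2] with w h3 h4
  have h5 := ((contMDiffAt_iff_rep (g := id) ((chartAt E x).map_target h3) h4).1 contMDiffAt_id).2
  rwa [(chartAt E x).right_inv h3] at h5

section

variable {P : Type} [TopologicalSpace P] {γ : P → M → M} {ζ : P → M} {p₀ : P}

theorem eval_cont {x y : M} (hζ : ContinuousAt ζ p₀) (hx : ζ p₀ ∈ (chartAt E x).source)
    (hy : ∀ᶠ p in 𝓝 p₀, γ p (ζ p) ∈ (chartAt E y).source)
    (h : ContinuousAt (fun p => jet E (γ p) x y 0 (ζ p)) p₀) :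
    ContinuousAt (fun p => γ p (ζ p)) p₀ := by
  have h1 := continuousAt_of_jet_zero h
  have h2 : ∀ᶠ p in 𝓝 p₀, rep E (γ p) x y (chartAt E x (ζ p)) = chartAt E y (γ p (ζ p)) := by
    filter_upwards [hζ.eventually ((chartAt E x).open_source.mem_nhds hx)] with p hp
    rw [rep, (chartAt E x).left_inv hp]
  have h3 := ((chartAt E y).continuousAt_symm
    ((chartAt E y).map_source hy.self_of_nhds)).comp_of_eq (h1.congr h2) rfl
  refine h3.congr ?_
  filter_upwards [hy] with p hp using (chartAt E y).left_inv hp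

theorem change_chart {x y x' y' : M} (hγ : ∀ p, ContMDiff 𝓘(ℝ, E) 𝓘(ℝ, E) ∞ (γ p))
    (hζ : ContinuousAt ζ p₀) (hx' : ζ p₀ ∈ (chartAt E x').source)
    (hy' : ∀ᶠ p in 𝓝 p₀, γ p (ζ p) ∈ (chartAt E y').source)
    (h : ∀ j, ContinuousAt (fun p => jet E (γ p) x' y' j (ζ p)) p₀)
    (hx : ζ p₀ ∈ (chartAt E x).source) (hy : γ p₀ (ζ p₀) ∈ (chartAt E y).source) (j : ℕ) :
    ContinuousAt (fun p => jet E (γ p) x y j (ζ p)) p₀ := by
  have e1 := hζ.eventually ((chartAt E x).open_source.mem_nhds hx)
  have e2 := hζ.eventually ((chartAt E x').open_source.mem_nhds hx')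
  have h0 := eval_cont hζ hx' hy' (h 0)
  have h1 : JetCont (fun _ => rep E id x x') (fun p => chartAt E x (ζ p)) p₀ :=
    JetCont.const (((chartAt E x).continuousAt hx).comp hζ) (eventually_transition hx hx')
  have h2 : JetCont (fun p => rep E (γ p) x' y') (fun p => chartAt E x' (ζ p)) p₀ := by
    refine ⟨?_, h⟩
    filter_upwards [e2, hy'] with p a b using ((contMDiffAt_iff_rep a b).1 (hγ p _)).2
  have h3 : JetCont (fun _ => rep E id y' y) (fun p => chartAt E y' (γ p (ζ p))) p₀ :=
    JetCont.const (ContinuousAt.comp (g := chartAt E y') (f := fun p => γ p (ζ p))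
      ((chartAt E y').continuousAt hy'.self_of_nhds) h0)
      (eventually_transition hy'.self_of_nhds hy)
  have h4 := JetCont.comp (h2.congr (b := fun p => rep E id x x' (chartAt E x (ζ p))) (by
    filter_upwards [e1] with p hp
    rw [rep, (chartAt E x).left_inv hp, id]) (Eventually.of_forall fun _ => EventuallyEq.rfl)) h1
  have h5 := JetCont.comp (h3.congr
    (b := fun p => (rep E (γ p) x' y' ∘ rep E id x x') (chartAt E x (ζ p))) (by
    filter_upwards [e1, e2] with p hp hp'
    rw [Function.comp, rep, rep, (chartAt E x).left_inv hp, id, (chartAt E x').left_inv hp'])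
      (Eventually.of_forall fun _ => EventuallyEq.rfl)) h4
  refine (h5.congr (v := fun p => rep E (γ p) x y) (Eventually.of_forall fun _ => rfl) ?_).2 j
  filter_upwards [e1, e2, hy'] with p a b c
  have h6 := (chartAt E x).tendsto_symm a
  filter_upwards [h6.eventually ((chartAt E x').open_source.mem_nhds b),
    (((hγ p).continuous.tendsto _).comp h6).eventually
      ((chartAt E y').open_source.mem_nhds c)] with w h7 h8
  simp only [Function.comp, rep, id] at h8 ⊢
  rw [(chartAt E x').left_inv h7, (chartAt E y').left_inv h8]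

end

theorem continuousAt_jet {g : M → M} (hg : ContMDiff 𝓘(ℝ, E) 𝓘(ℝ, E) ∞ g) {x y z : M}
    (hx : z ∈ (chartAt E x).source) (hy : g z ∈ (chartAt E y).source) (j : ℕ) :
    ContinuousAt (jet E g x y j) z :=
  (((contMDiffAt_iff_rep hx hy).1 (hg z)).2.continuousAt_iteratedFDeriv
    (by exact_mod_cast le_top)).comp ((chartAt E x).continuousAt hx)

variable (E M) in
/-- Smooth diffeomorphisms. -/
abbrev Diff : Type := Diffeomorph 𝓘(ℝ, E) 𝓘(ℝ, E) M M ∞

/-- Subbasic neighbourhoods. -/
def Sub (f : Diff E M) (x y : M) (K : Set M) (k : ℕ) (ε : ℝ) : Set (Diff E M) :=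
  {g | (fun z => g z) '' K ⊆ (chartAt E y).source ∧
    ∀ j ≤ k, ∀ z ∈ K, ‖jet E g x y j z - jet E f x y j z‖ < ε}

variable (E M) in
/-- The smooth topology. -/
@[reducible] def tau : TopologicalSpace (Diff E M) :=
  generateFrom {S | ∃ (f : Diff E M) (x y : M) (K : Set M) (k : ℕ) (ε : ℝ), IsCompact K ∧
    K ⊆ (chartAt E x).source ∧ (fun z => f z) '' K ⊆ (chartAt E y).source ∧ 0 < ε ∧
      S = Sub f x y K k ε}

theorem le_tau [t : TopologicalSpace (Diff E M)]
    (h : ∀ (g : Diff E M) (z : M), ∃ x y, z ∈ (chartAt E x).source ∧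
      (∀ᶠ p : Diff E M × M in 𝓝 (g, z), p.1 p.2 ∈ (chartAt E y).source) ∧
      ∀ j, ContinuousAt (fun p : Diff E M × M => jet E p.1 x y j p.2) (g, z)) : t ≤ tau E M := by
  refine le_generateFrom ?_
  rintro _ ⟨f, x, y, K, k, ε, hK, hx, hy, -, rfl⟩
  refine isOpen_iff_mem_nhds.2 fun g hg => ?_
  have : ∀ᶠ g' : Diff E M in 𝓝 g, ∀ z ∈ K, g' z ∈ (chartAt E y).source ∧
      ∀ j ∈ Iic k, ‖jet E g' x y j z - jet E f x y j z‖ < ε := by
    refine hK.eventually_forall_of_forall_eventually fun z hz => ?_
    obtain ⟨x', y', h1, h2, h3⟩ := h g z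
    have h4 : g z ∈ (chartAt E y).source := hg.1 ⟨z, hz, rfl⟩
    refine ((eval_cont (γ := fun p : Diff E M × M => p.1) continuousAt_snd h1 h2
      (h3 0)).eventually ((chartAt E y).open_source.mem_nhds h4)).and ?_
    refine (eventually_all_finite (finite_Iic k)).2 fun j hj => ?_
    have h5 := change_chart (γ := fun p : Diff E M × M => p.1) (fun p => p.1.contMDiff)
      continuousAt_snd h1 h2 h3 (hx hz) h4 j
    have h6 : ContinuousAt (fun p : Diff E M × M => jet E f x y j p.2) (g, z) :=
      ContinuousAt.comp (g := jet E f x y j) (f := Prod.snd)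
        (continuousAt_jet f.contMDiff (hx hz) (hy ⟨z, hz, rfl⟩) j) continuousAt_snd
    exact (h5.sub h6).norm.eventually (gt_mem_nhds (hg.2 j hj z hz))
  filter_upwards [this] with g' hg'
  exact ⟨by rintro _ ⟨z, hz, rfl⟩; exact (hg' z hz).1, fun j hj z hz => (hg' z hz).2 j hj⟩

theorem sub_mem_nhds {f : Diff E M} {x y : M} {K : Set M} (k : ℕ) {ε : ℝ} (hK : IsCompact K)
    (hx : K ⊆ (chartAt E x).source) (hy : (fun z => f z) '' K ⊆ (chartAt E y).source)
    (hε : 0 < ε) : IsOpen[tau E M] (Sub f x y K k ε) ∧ f ∈ Sub f x y K k ε :=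
  ⟨isOpen_generateFrom_of_mem ⟨f, x, y, K, k, ε, hK, hx, hy, hε, rfl⟩, hy,
    fun _ _ _ _ => by simpa using hε⟩

theorem continuous_eval_tau [LocallyCompactSpace M] :
    letI := tau E M
    Continuous fun p : Diff E M × M => p.1 p.2 := by
  letI := tau E M
  refine continuous_iff_continuousAt.2 fun ⟨g, z⟩ => ?_
  obtain ⟨K, hK, h1, h2⟩ := local_compact_nhds (inter_mem (chart_source_mem_nhds E z)
    (g.continuous.continuousAt.preimage_mem_nhds (chart_source_mem_nhds E (g z))))
  have hS : ∀ ε > 0, ∀ᶠ p : Diff E M × M in 𝓝 (g, z), p.1 ∈ Sub g z (g z) K 0 ε ∧ p.2 ∈ K := by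
    intro ε hε
    have := sub_mem_nhds (f := g) (x := z) (y := g z) 0 h2 (h1.trans inter_subset_left)
      (image_subset_iff.2 (h1.trans inter_subset_right)) hε
    exact prod_mem_nhds (this.1.mem_nhds this.2) hK
  refine eval_cont (E := E) (γ := fun p : Diff E M × M => p.1) (x := z) (y := g z)
    continuousAt_snd (mem_chart_source E z) ?_ ?_
  · filter_upwards [hS 1 one_pos] with p hp using hp.1.1 ⟨_, hp.2, rfl⟩
  · have h6 : ContinuousAt (fun p : Diff E M × M => jet E g z (g z) 0 p.2) (g, z) :=
      ContinuousAt.comp (g := jet E g z (g z) 0) (f := Prod.snd)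
        (continuousAt_jet g.contMDiff (mem_chart_source E z) (mem_chart_source E (g z)) 0)
        continuousAt_snd
    refine h6.congr_dist (Metric.tendsto_nhds.2 fun ε hε => ?_)
    filter_upwards [hS ε hε] with p hp
    rw [dist_zero_right, Real.norm_of_nonneg dist_nonneg, dist_eq_norm']
    exact hp.1.2 0 le_rfl _ hp.2

theorem separable_tau [FiniteDimensional ℝ E] [CompactSpace M] [T2Space M] :
    @SeparableSpace _ (tau E M) := by
  classical
  haveI : SecondCountableTopology M := ChartedSpace.secondCountable_of_sigmaCompact E M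
  haveI : ∀ j, FiniteDimensional ℝ (E [×j]→L[ℝ] E) := fun j =>
    Module.Finite.of_injective ContinuousMultilinearMap.toMultilinearMapLinear
      ContinuousMultilinearMap.toMultilinearMap_injective
  obtain ⟨T, hT, hT'⟩ := TopologicalSpace.countable_cover_nhds fun x : M => chart_source_mem_nhds E x
  haveI := hT.to_subtype
  haveI := (countable_countableBasis M).to_subtype
  let Adm : Diff E M → T × T × countableBasis M → Prop := fun g d =>
    closure d.2.2.1 ⊆ (chartAt E d.1.1).source ∩ g ⁻¹' (chartAt E d.2.1.1).source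
  let Θ : Diff E M → ∀ d : T × T × countableBasis M,
      Bool × ∀ j, C(closure d.2.2.1, E [×j]→L[ℝ] E) := fun g d =>
    (decide (Adm g d), fun j => if h : Adm g d then
      ⟨fun z => jet E g d.1.1 d.2.1.1 j z, continuous_iff_continuousAt.2 fun z =>
        (continuousAt_jet g.contMDiff (h z.2).1 (h z.2).2 j).comp continuousAt_subtype_val⟩
      else 0)
  haveI : ∀ d : T × T × countableBasis M, CompactSpace (closure d.2.2.1) := fun d =>
    isCompact_iff_compactSpace.1 isClosed_closure.isCompact
  letI t : TopologicalSpace (Diff E M) := induced Θ inferInstance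
  haveI : SecondCountableTopology (Diff E M) := secondCountableTopology_induced _ _ Θ
  have hΘ : Continuous Θ := continuous_induced_dom
  have hle : t ≤ tau E M := by
    refine le_tau fun g z => ?_
    obtain ⟨x, hx, h1⟩ := mem_iUnion₂.1 (hT'.symm ▸ mem_univ z)
    obtain ⟨y, hy, h2⟩ := mem_iUnion₂.1 (hT'.symm ▸ mem_univ (g z))
    obtain ⟨B, hB, h3, h4⟩ := (isBasis_countableBasis M).exists_closure_subset
      (inter_mem ((chartAt E x).open_source.mem_nhds h1)
        (g.continuous.continuousAt.preimage_mem_nhds ((chartAt E y).open_source.mem_nhds h2)))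
    let d : T × T × countableBasis M := (⟨x, hx⟩, ⟨y, hy⟩, ⟨B, hB⟩)
    have h5 : ∀ᶠ g' in 𝓝 g, Adm g' d := by
      have h6 : ContinuousAt (fun g' => (Θ g' d).1) g :=
        (continuous_fst.comp ((continuous_apply d).comp hΘ)).continuousAt
      filter_upwards [h6.eventually (p := fun b => b = true)
        ((isOpen_discrete {true}).mem_nhds (decide_eq_true (p := Adm g d) h4))] with g' hg'
      exact of_decide_eq_true hg'
    have h7 : closure B ∈ 𝓝 z :=
      mem_of_superset ((isOpen_of_mem_countableBasis hB).mem_nhds h3) subset_closure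
    refine ⟨x, y, h1, ?_, fun j => ?_⟩
    · filter_upwards [prod_mem_nhds h5 h7] with p hp using (hp.1 hp.2).2
    · let r : M → closure B := fun w => if h : w ∈ closure B then ⟨w, h⟩ else ⟨z, subset_closure h3⟩
      have hr : ∀ w ∈ closure B, (r w : M) = w := fun w hw => by simp [r, hw]
      have h8 : ContinuousAt r z := by
        refine IsInducing.subtypeVal.continuousAt_iff.2 (continuousAt_id.congr ?_)
        filter_upwards [h7] with w hw using (hr w hw).symm
      have h9 : Continuous fun g' => (Θ g' d).2 j :=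
        (continuous_apply j).comp (continuous_snd.comp ((continuous_apply d).comp hΘ))
      have h10 : ContinuousAt (fun p : Diff E M × M => (Θ p.1 d).2 j (r p.2)) (g, z) :=
        ContinuousAt.eval (h9.comp continuous_fst).continuousAt
          (ContinuousAt.comp (g := r) (f := Prod.snd) h8 continuousAt_snd)
      refine h10.congr ?_
      filter_upwards [prod_mem_nhds h5 h7] with p hp
      have h11 : Adm p.1 d := hp.1
      simp only [Θ, dif_pos h11]
      change jet E p.1 x y j (r p.2) = _
      rw [hr _ hp.2]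
  exact @DenseRange.separableSpace _ _ t _ (tau E M) id (@denseRange_id _ (tau E M))
    (continuous_id_of_le hle)

end Pool.Agent.Lib.MP_8468cd_lc
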