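import Pool.Agent.Lib.MP_8468cd_lc.Baire
import Pool.Agent.Lib.MP_8468cd_lc.Homeo

/-!
Topological conjugacy is Borel on a dense `Gδ` set of smooth diffeomorphisms.
-/

set_option autoImplicit false
set_option linter.style.haveILetI false

namespace Pool.Agent.Lib.MP_8468cd_lc

open Set Filter Topology TopologicalSpace
open scoped ContDiff Manifold

theorem main_metric {E : Type} [NormedAddCommGroup E] [NormedSpace ℝ E] [FiniteDimensional ℝ E]
    {M : Type} [MetricSpace M] [ChartedSpace E M] [IsManifold 𝓘(ℝ, E) ∞ M] [CompactSpace M] :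
    ∃ G : Set (Diff E M), @IsGδ _ (tau E M) G ∧ @Dense _ (tau E M) G ∧
      @MeasurableSet _ (@borel _ (induced Prod.fst (tau E M) ⊓ induced Prod.snd (tau E M)))
        {p : Diff E M × Diff E M | p.1 ∈ G ∧ p.2 ∈ G ∧
          ∃ h : M ≃ₜ M, ∀ z, h (p.1 z) = p.2 (h z)} := by
  letI := tau E M
  haveI := baire_tau (E := E) (M := M)
  haveI := separable_tau (E := E) (M := M)
  exact generic_conj (f := fun g : Diff E M => (⟨g, g.continuous⟩ : C(M, M)))
    (ContinuousMap.continuous_of_continuous_uncurry _ continuous_eval_tau)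

theorem main {E : Type} [NormedAddCommGroup E] [NormedSpace ℝ E] [FiniteDimensional ℝ E]
    {M : Type} [TopologicalSpace M] [ChartedSpace E M] [IsManifold 𝓘(ℝ, E) ∞ M] [CompactSpace M]
    [T2Space M] :
    ∃ G : Set (Diff E M), @IsGδ _ (tau E M) G ∧ @Dense _ (tau E M) G ∧
      @MeasurableSet _ (@borel _ (induced Prod.fst (tau E M) ⊓ induced Prod.snd (tau E M)))
        {p : Diff E M × Diff E M | p.1 ∈ G ∧ p.2 ∈ G ∧
          ∃ h : M ≃ₜ M, ∀ z, h (p.1 z) = p.2 (h z)} := by
  haveI : SecondCountableTopology M := ChartedSpace.secondCountable_of_sigmaCompact E M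
  letI := metrizableSpaceMetric M
  exact main_metric

end Pool.Agent.Lib.MP_8468cd_lc
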