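import Mathlib

/-!
A Scott analysis for continuous actions of Polish groups: the orbit equivalence relation, pulled
back along a continuous map from a separable Baire space, is Borel on a dense `Gδ` set.
-/

set_option autoImplicit false
set_option linter.unusedSectionVars false
set_option linter.style.haveILetI false

namespace Pool.Agent.Lib.MP_8468cd_lc

open Set Filter Topology TopologicalSpace

section Scott

variable {G X ι : Type} [Group G] [TopologicalSpace G] [IsTopologicalGroup G]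
  [TopologicalSpace X] [MulAction G X] [ContinuousSMul G X] [LinearOrder ι] [WellFoundedLT ι]

/-- The base relation: `V • x` lies in the closure of `W • y`. -/
def Base (x : X) (V : Set G) (y : X) (W : Set G) : Prop :=
  ∀ g ∈ V, g • x ∈ closure ((fun h : G => h • y) '' W)

/-- One step of the back and forth. -/
def Step (R : X → Set G → X → Set G → Prop) (x : X) (V : Set G) (y : X) (W : Set G) : Prop :=
  ∀ V' : Set G, V' ⊆ V → IsOpen V' → V'.Nonempty →
    ∃ W' : Set G, W' ⊆ W ∧ IsOpen W' ∧ W'.Nonempty ∧ R y W' x V'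

/-- The approximations of the orbit equivalence relation. -/
def Rel : ι → X → Set G → X → Set G → Prop :=
  (wellFounded_lt (α := ι)).fix fun a ih x V y W =>
    Base x V y W ∧ ∀ b (hb : b < a), Step (ih b hb) x V y W

theorem rel_iff (a : ι) (x : X) (V : Set G) (y : X) (W : Set G) :
    Rel a x V y W ↔ Base x V y W ∧ ∀ b < a, Step (Rel b) x V y W := by
  unfold Rel
  rw [WellFounded.fix_eq]

theorem Base.move {x y : X} {g h : G} {V₁ V₂ W₁ W₂ : Set G} (hV : ∀ v ∈ V₂, v * g⁻¹ ∈ V₁)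
    (hW : ∀ w ∈ W₁, w * h ∈ W₂) (H : Base (g • x) V₁ (h • y) W₁) : Base x V₂ y W₂ := by
  intro v hv
  have h1 := H _ (hV v hv)
  rw [smul_smul, inv_mul_cancel_right] at h1
  refine closure_mono ?_ h1
  rintro _ ⟨w, hw, rfl⟩
  exact ⟨w * h, hW w hw, by simp [smul_smul]⟩

theorem Step.move {R : X → Set G → X → Set G → Prop}
    (hR : ∀ {x y : X} {g h : G} {V₁ V₂ W₁ W₂ : Set G}, (∀ v ∈ V₂, v * g⁻¹ ∈ V₁) →
      (∀ w ∈ W₁, w * h ∈ W₂) → R (g • x) V₁ (h • y) W₁ → R x V₂ y W₂)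
    {x y : X} {g h : G} {V₁ V₂ W₁ W₂ : Set G} (hV : ∀ v ∈ V₂, v * g⁻¹ ∈ V₁)
    (hW : ∀ w ∈ W₁, w * h ∈ W₂) (H : Step R (g • x) V₁ (h • y) W₁) : Step R x V₂ y W₂ := by
  intro V' h1 h2 ⟨v, hv⟩
  obtain ⟨W', h3, h4, ⟨w, hw⟩, h5⟩ := H {u | u * g ∈ V'}
    (fun u hu => by simpa using hV _ (h1 hu)) (h2.preimage (continuous_mul_const g))
    ⟨v * g⁻¹, by simpa using hv⟩
  refine ⟨{u | u * h⁻¹ ∈ W'}, fun u hu => by simpa using hW _ (h3 hu),
    h4.preimage (continuous_mul_const h⁻¹), ⟨w * h, by simpa using hw⟩, ?_⟩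
  exact hR (fun _ hu => hu) (fun _ hu => hu) h5

theorem Rel.move (a : ι) : ∀ {x y : X} {g h : G} {V₁ V₂ W₁ W₂ : Set G},
    (∀ v ∈ V₂, v * g⁻¹ ∈ V₁) → (∀ w ∈ W₁, w * h ∈ W₂) →
      Rel a (g • x) V₁ (h • y) W₁ → Rel a x V₂ y W₂ := by
  induction a using WellFoundedLT.induction with
  | ind a ih =>
    intro x y g h V₁ V₂ W₁ W₂ hV hW H
    rw [rel_iff] at H ⊢
    exact ⟨H.1.move hV hW, fun b hb => Step.move (ih b hb) hV hW (H.2 b hb)⟩

theorem Rel.move' (a : ι) {x y : X} {g h : G} {V₁ V₂ W₁ W₂ : Set G}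
    (hV : ∀ v ∈ V₂, v * g ∈ V₁) (hW : ∀ w ∈ W₁, w * h⁻¹ ∈ W₂) (H : Rel a x V₁ y W₁) :
    Rel a (g • x) V₂ (h • y) W₂ :=
  Rel.move a (g := g⁻¹) (h := h⁻¹) (by simpa using hV) hW (by simpa using H)

theorem Rel.mono (a : ι) {x y : X} {V₁ V₂ W₁ W₂ : Set G} (hV : V₂ ⊆ V₁) (hW : W₁ ⊆ W₂)
    (H : Rel a x V₁ y W₁) : Rel a x V₂ y W₂ :=
  Rel.move a (g := 1) (h := 1) (fun v hv => by simpa using hV hv) (fun v hv => by simpa using hW hv)
    (by simpa using H)

theorem Rel.refl (a : ι) (x : X) : ∀ V : Set G, Rel a x V x V := by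
  induction a using WellFoundedLT.induction with
  | ind a ih =>
    intro V
    rw [rel_iff]
    exact ⟨fun g hg => subset_closure ⟨g, hg, rfl⟩,
      fun b hb V' h1 h2 h3 => ⟨V', h1, h2, h3, ih b hb V'⟩⟩

theorem step_iff [SecondCountableTopology G] (a : ι) (x : X) (V : Set G) (y : X) (W : Set G) :
    Step (Rel a) x V y W ↔ ∀ V' ∈ countableBasis G, V' ⊆ V →
      ∃ W' ∈ countableBasis G, W' ⊆ W ∧ Rel a y W' x V' := by
  constructor
  · intro H V' h1 h2
    obtain ⟨W', h3, h4, ⟨w, hw⟩, h5⟩ :=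
      H V' h2 (isOpen_of_mem_countableBasis h1) (nonempty_of_mem_countableBasis h1)
    obtain ⟨W'', h6, -, h7⟩ := (isBasis_countableBasis G).exists_subset_of_mem_open hw h4
    exact ⟨W'', h6, h7.trans h3, h5.mono a h7 subset_rfl⟩
  · intro H V' h1 h2 ⟨v, hv⟩
    obtain ⟨V'', h6, -, h7⟩ := (isBasis_countableBasis G).exists_subset_of_mem_open hv h2
    obtain ⟨W', h3, h4, h5⟩ := H V'' h6 (h7.trans h1)
    exact ⟨W', h4, isOpen_of_mem_countableBasis h3, nonempty_of_mem_countableBasis h3,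
      h5.mono a subset_rfl h7⟩

section Borel

variable [SecondCountableTopology G] [SecondCountableTopology X]
  {Z : Type} [TopologicalSpace Z] [MeasurableSpace Z] [OpensMeasurableSpace Z]

theorem meas_ball {κ : Type} {s : Set κ} (hs : s.Countable) {P : κ → Z → Prop}
    (h : ∀ k ∈ s, MeasurableSet {z | P k z}) : MeasurableSet {z | ∀ k ∈ s, P k z} := by
  have : {z | ∀ k ∈ s, P k z} = ⋂ k ∈ s, {z | P k z} := by ext; simp
  rw [this]
  exact MeasurableSet.biInter hs h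

theorem meas_bex {κ : Type} {s : Set κ} (hs : s.Countable) {P : κ → Z → Prop}
    (h : ∀ k ∈ s, MeasurableSet {z | P k z}) : MeasurableSet {z | ∃ k ∈ s, P k z} := by
  have : {z | ∃ k ∈ s, P k z} = ⋃ k ∈ s, {z | P k z} := by ext; simp
  rw [this]
  exact MeasurableSet.biUnion hs h

theorem meas_imp {P Q : Z → Prop} (hP : MeasurableSet {z | P z}) (hQ : MeasurableSet {z | Q z}) :
    MeasurableSet {z | P z → Q z} := by
  have : {z | P z → Q z} = {z | P z}ᶜ ∪ {z | Q z} := by ext; simp [imp_iff_not_or]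
  rw [this]
  exact hP.compl.union hQ

theorem meas_and {P Q : Z → Prop} (hP : MeasurableSet {z | P z}) (hQ : MeasurableSet {z | Q z}) :
    MeasurableSet {z | P z ∧ Q z} := hP.inter hQ

theorem meas_base {p q : Z → X} (hp : Continuous p) (hq : Continuous q) (V W : Set G) :
    MeasurableSet {z | Base (p z) V (q z) W} := by
  have ho : ∀ (r : Z → X), Continuous r → ∀ (U : Set G) (B : Set X), IsOpen B →
      MeasurableSet {z | ∃ g ∈ U, g • r z ∈ B} := by
    intro r hr U B hB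
    have : {z | ∃ g ∈ U, g • r z ∈ B} = ⋃ g ∈ U, (fun z => g • r z) ⁻¹' B := by ext; simp
    rw [this]
    exact (isOpen_biUnion fun g _ => hB.preimage (hr.const_smul g)).measurableSet
  have : {z | Base (p z) V (q z) W} =
      {z | ∀ B ∈ countableBasis X, (∃ g ∈ V, g • p z ∈ B) → ∃ g ∈ W, g • q z ∈ B} := by
    ext z
    simp only [Base, mem_ofPred_eq, (isBasis_countableBasis X).mem_closure_iff]
    constructor
    · rintro H B hB ⟨g, hg, h1⟩
      obtain ⟨_, h2, w, hw, rfl⟩ := H g hg B hB h1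
      exact ⟨w, hw, h2⟩
    · intro H g hg B hB h1
      obtain ⟨w, hw, h2⟩ := H B hB ⟨g, hg, h1⟩
      exact ⟨_, h2, w, hw, rfl⟩
  rw [this]
  exact meas_ball (countable_countableBasis X) fun B hB =>
    meas_imp (ho p hp V B (isOpen_of_mem_countableBasis hB))
      (ho q hq W B (isOpen_of_mem_countableBasis hB))

theorem meas_step {a : ι} (h : ∀ {p q : Z → X}, Continuous p → Continuous q → ∀ V W : Set G,
      MeasurableSet {z | Rel a (p z) V (q z) W})
    {p q : Z → X} (hp : Continuous p) (hq : Continuous q) (V W : Set G) :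
    MeasurableSet {z | Step (Rel a) (p z) V (q z) W} := by
  simp only [step_iff]
  exact meas_ball (countable_countableBasis G) fun V' _ => meas_imp (MeasurableSet.const _)
    (meas_bex (countable_countableBasis G) fun W' _ =>
      meas_and (MeasurableSet.const _) (h hq hp W' V'))

theorem meas_rel (a : ι) : (Iio a).Countable → ∀ {p q : Z → X}, Continuous p → Continuous q →
    ∀ V W : Set G, MeasurableSet {z | Rel a (p z) V (q z) W} := by
  induction a using WellFoundedLT.induction with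
  | ind a ih =>
    intro ha p q hp hq V W
    have : {z | Rel a (p z) V (q z) W} = {z | Base (p z) V (q z) W ∧
        ∀ b ∈ Iio a, Step (Rel b) (p z) V (q z) W} := by
      ext z; rw [mem_ofPred_eq, rel_iff]; rfl
    rw [this]
    exact meas_and (meas_base hp hq V W) (meas_ball ha fun b hb =>
      meas_step (ih b hb (ha.mono (Iio_subset_Iio (le_of_lt hb)))) hp hq V W)

end Borel

/-- Every right translate of `W` is contained in a member of `C` that lies in the corresponding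
translate of `W'`. -/
def Inside (C : Set (Set G)) (W W' : Set G) : Prop :=
  ∀ g : G, ∃ U ∈ C, (∀ w ∈ W, w * g ∈ U) ∧ ∀ u ∈ U, u * g⁻¹ ∈ W'

theorem Inside.subset {C : Set (Set G)} {W W' : Set G} (h : Inside C W W') : W ⊆ W' := by
  obtain ⟨U, -, h1, h2⟩ := h 1
  intro w hw
  simpa using h2 _ (h1 w hw)

theorem exists_family (G : Type) [Group G] [TopologicalSpace G] [IsTopologicalGroup G]
    [SecondCountableTopology G] : ∃ C : Set (Set G), C.Countable ∧ countableBasis G ⊆ C ∧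
      ∀ (a : G) (O : Set G), O ∈ 𝓝 a → ∃ W ∈ countableBasis G, a ∈ W ∧ Inside C W O := by
  obtain ⟨D, hD, hD'⟩ := exists_countable_dense G
  have key : ∀ (a : G) (O : Set G), O ∈ 𝓝 a → ∃ W ∈ countableBasis G, a ∈ W ∧
      ∃ U ∈ 𝓝 (1 : G), ∀ w ∈ W, ∀ u ∈ U, w * u ∈ O := by
    intro a O hO
    have h1 : (fun p : G × G => p.1 * p.2) ⁻¹' O ∈ 𝓝 (a, (1 : G)) :=
      continuous_mul.continuousAt.preimage_mem_nhds (by simpa using hO)
    obtain ⟨A, hA, U, hU, h2⟩ := mem_nhds_prod_iff.1 h1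
    obtain ⟨W, hW, haW, h3⟩ := (isBasis_countableBasis G).mem_nhds_iff.1 hA
    exact ⟨W, hW, haW, U, hU, fun w hw u hu => h2 (mk_mem_prod (h3 hw) hu)⟩
  refine ⟨countableBasis G ∪ (fun p : Set G × G => {u | u * p.2⁻¹ ∈ p.1}) ''
    (countableBasis G ×ˢ D), (countable_countableBasis G).union
      (((countable_countableBasis G).prod hD).image _), subset_union_left, fun a O hO => ?_⟩
  obtain ⟨W', hW', ha', U', hU', h1⟩ := key a O hO
  obtain ⟨W, hW, ha, U, hU, h2⟩ := key a W' ((isOpen_of_mem_countableBasis hW').mem_nhds ha')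
  refine ⟨W, hW, ha, fun g => ?_⟩
  have h3 : {d : G | g * d⁻¹ ∈ U} ∈ 𝓝 g :=
    (by fun_prop : Continuous fun d : G => g * d⁻¹).continuousAt.preimage_mem_nhds
      (by simpa using hU)
  have h4 : {d : G | d * g⁻¹ ∈ U'} ∈ 𝓝 g :=
    (by fun_prop : Continuous fun d : G => d * g⁻¹).continuousAt.preimage_mem_nhds
      (by simpa using hU')
  obtain ⟨d, hd, hd1, hd2⟩ := hD'.inter_nhds_nonempty (inter_mem h3 h4)
  refine ⟨_, Or.inr ⟨(W', d), ⟨hW', hd⟩, rfl⟩, fun w hw => ?_, fun u hu => ?_⟩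
  · simpa [mul_assoc] using h2 w hw _ hd1
  · simpa [mul_assoc] using h1 _ hu _ hd2

/-- The analysis of `x` has stabilised at stage `a`. -/
def SelfStable (C : Set (Set G)) (a : ι) (x : X) : Prop :=
  ∀ V ∈ C, ∀ W ∈ C, Rel a x V x W → Step (Rel a) x V x W

/-- The analysis of the pair `x`, `y` has stabilised at stage `a`. -/
def Stable [SecondCountableTopology G] (C : Set (Set G)) (a : ι) (x y : X) : Prop :=
  ∀ V ∈ countableBasis G, ∀ W ∈ countableBasis G, ∀ W' ∈ countableBasis G, Inside C W W' →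
    Rel a x V y W → Step (Rel a) x V y W'

theorem SelfStable.stable [SecondCountableTopology G] {C : Set (Set G)}
    (hC : countableBasis G ⊆ C) {a : ι} {x : X} (H : SelfStable C a x) (g h : G) :
    Stable C a (g • x) (h • x) := by
  intro V _ W _ W' _ hWW' H1 V' h1 h2 ⟨v, hv⟩
  obtain ⟨U, hU, h3, h4⟩ := hWW' h
  obtain ⟨V'', h5, h6, h7⟩ := (isBasis_countableBasis G).exists_subset_of_mem_open
    (a := v * g) (u := {u | u * g⁻¹ ∈ V'}) (by simpa using hv)
    (h2.preimage (continuous_mul_const g⁻¹))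
  obtain ⟨W₁, h8, h9, ⟨w, hw⟩, h10⟩ := H V'' (hC h5) U hU
    (Rel.move a (fun u hu => h1 (h7 hu)) h3 H1) V'' subset_rfl
    (isOpen_of_mem_countableBasis h5) ⟨_, h6⟩
  refine ⟨{u | u * h ∈ W₁}, fun u hu => by simpa using h4 _ (h8 hu),
    h9.preimage (continuous_mul_const h), ⟨w * h⁻¹, by simpa using hw⟩, ?_⟩
  exact Rel.move' a (fun _ hu => hu) (fun _ hu => h7 hu) h10

end Scott

section Forth

variable {G X ι : Type} [Group G] [MetricSpace G] [IsTopologicalGroup G] [CompleteSpace G]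
  [SecondCountableTopology G] [TopologicalSpace X] [T3Space X] [MulAction G X]
  [ContinuousSMul G X] [LinearOrder ι] [WellFoundedLT ι]

theorem forth {C : Set (Set G)}
    (hC : ∀ (a : G) (O : Set G), O ∈ 𝓝 a → ∃ W ∈ countableBasis G, a ∈ W ∧ Inside C W O)
    {a : ι} {x y : X} (hs : Stable C a y x) {V W : Set G} (hV : IsOpen V) (hV' : V.Nonempty)
    (H : Step (Rel a) x V y W) {ε : ℝ} (hε : 0 < ε) :
    ∃ V₁ W₁ : Set G, IsOpen V₁ ∧ V₁.Nonempty ∧ IsOpen W₁ ∧ W₁.Nonempty ∧ closure V₁ ⊆ V ∧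
      (∀ u ∈ V₁, ∀ v ∈ V₁, dist u v < ε) ∧ W₁ ⊆ W ∧ Step (Rel a) y W₁ x V₁ ∧ Base y W₁ x V₁ := by
  obtain ⟨v, hv⟩ := hV'
  obtain ⟨V₁, h1, h2, h3⟩ := (isBasis_countableBasis G).exists_closure_subset
    (inter_mem (hV.mem_nhds hv) (Metric.ball_mem_nhds v (half_pos hε)))
  obtain ⟨V₀, h4, h5, h6⟩ := hC v V₁ ((isOpen_of_mem_countableBasis h1).mem_nhds h2)
  obtain ⟨W₁, h7, h8, h9⟩ := (step_iff a x V y W).1 H V₀ h4
    (h6.subset.trans (subset_closure.trans (h3.trans inter_subset_left)))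
  refine ⟨V₁, W₁, isOpen_of_mem_countableBasis h1, ⟨v, h2⟩, isOpen_of_mem_countableBasis h7,
    nonempty_of_mem_countableBasis h7, h3.trans inter_subset_left, fun u hu w hw => ?_, h8,
    hs W₁ h7 V₀ h4 V₁ h1 h6 h9, ((rel_iff _ _ _ _ _).1 (h9.mono a subset_rfl h6.subset)).1⟩
  exact dist_triangle_right u w v |>.trans_lt (by
    linarith [Metric.mem_ball.1 (h3 (subset_closure hu)).2,
      Metric.mem_ball.1 (h3 (subset_closure hw)).2])

theorem exists_limit {V : ℕ → Set G} (h1 : ∀ n, (V n).Nonempty)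
    (h2 : ∀ n, closure (V (n + 1)) ⊆ V n)
    (h3 : ∀ n, ∀ u ∈ V (n + 1), ∀ v ∈ V (n + 1), dist u v < 1 / ((n : ℝ) + 1)) :
    ∃ g, ∀ n, g ∈ V n := by
  choose v hv using h1
  have hanti : Antitone V := antitone_nat_of_succ_le fun n => subset_closure.trans (h2 n)
  have hc : CauchySeq v := by
    refine Metric.cauchySeq_iff'.2 fun ε hε => ?_
    obtain ⟨n, hn⟩ := exists_nat_one_div_lt hε
    exact ⟨n + 1, fun m hm => (h3 n _ (hanti hm (hv m)) _ (hv _)).trans hn⟩
  obtain ⟨g, hg⟩ := cauchySeq_tendsto_of_complete hc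
  refine ⟨g, fun n => h2 n (mem_closure_of_tendsto hg ?_)⟩
  filter_upwards [eventually_ge_atTop (n + 1)] with m hm using hanti hm (hv m)

theorem back_and_forth {C : Set (Set G)}
    (hC : ∀ (a : G) (O : Set G), O ∈ 𝓝 a → ∃ W ∈ countableBasis G, a ∈ W ∧ Inside C W O)
    {a : ι} {x y : X} (hs : Stable C a x y) (hs' : Stable C a y x)
    (H : Step (Rel a) x (univ : Set G) y univ) : ∃ g : G, g • x = y := by
  let P : Set G × Set G → Prop := fun p =>
    IsOpen p.1 ∧ p.1.Nonempty ∧ IsOpen p.2 ∧ p.2.Nonempty ∧ Step (Rel a) x p.1 y p.2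
  have step : ∀ (n : ℕ) (p : {p // P p}), ∃ q : {p // P p}, closure q.1.1 ⊆ p.1.1 ∧
      closure q.1.2 ⊆ p.1.2 ∧ (∀ u ∈ q.1.1, ∀ v ∈ q.1.1, dist u v < 1 / ((n : ℝ) + 1)) ∧
      (∀ u ∈ q.1.2, ∀ v ∈ q.1.2, dist u v < 1 / ((n : ℝ) + 1)) ∧ Base x q.1.1 y q.1.2 := by
    rintro n ⟨⟨V, W⟩, h1, h2, -, -, h5⟩
    obtain ⟨V₁, W₁, -, -, a3, a4, a5, a6, a7, a8, -⟩ :=
      forth hC hs' h1 h2 h5 (Nat.one_div_pos_of_nat (n := n))
    obtain ⟨W₂, V₂, b1, b2, b3, b4, b5, b6, b7, b8, b9⟩ :=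
      forth hC hs a3 a4 a8 (Nat.one_div_pos_of_nat (n := n))
    exact ⟨⟨(V₂, W₂), b3, b4, b1, b2, b8⟩, (closure_mono b7).trans a5, b5.trans a7,
      fun u hu v hv => a6 u (b7 hu) v (b7 hv), b6, b9⟩
  choose F hF using step
  let s : ℕ → {p // P p} := fun n => Nat.rec
    ⟨(univ, univ), isOpen_univ, univ_nonempty, isOpen_univ, univ_nonempty, H⟩ F n
  have hs1 : ∀ n, s (n + 1) = F n (s n) := fun n => rfl
  obtain ⟨g, hg⟩ := exists_limit (V := fun n => (s n).1.1) (fun n => (s n).2.2.1)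
    (fun n => (hF n (s n)).1) (fun n => (hF n (s n)).2.2.1)
  obtain ⟨h, hh⟩ := exists_limit (V := fun n => (s n).1.2) (fun n => (s n).2.2.2.2.1)
    (fun n => (hF n (s n)).2.1) (fun n => (hF n (s n)).2.2.2.1)
  refine ⟨h⁻¹ * g, ?_⟩
  rw [mul_smul, inv_smul_eq_iff]
  by_contra hne
  obtain ⟨O, hO, hO', hO''⟩ := exists_mem_nhds_isClosed_subset
    (isOpen_compl_singleton.mem_nhds (show h • y ∈ ({g • x}ᶜ : Set X) from fun e => hne e.symm))
  have h1 : (fun u : G => u • y) ⁻¹' O ∈ 𝓝 h :=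
    (continuous_id.smul continuous_const).continuousAt.preimage_mem_nhds hO
  obtain ⟨ε, hε, h2⟩ := Metric.mem_nhds_iff.1 h1
  obtain ⟨n, hn⟩ := exists_nat_one_div_lt hε
  have h3 := (hF n (s n)).2.2.2.2 g (hg (n + 1))
  refine hO'' (closure_minimal ?_ hO' h3) rfl
  rintro _ ⟨w, hw, rfl⟩
  exact h2 (((hF n (s n)).2.2.2.1 w hw h (hh (n + 1))).trans hn)

end Forth

theorem countable_nonmeagre {Y ι : Type} [TopologicalSpace Y] [BaireSpace Y] [SeparableSpace Y]
    {I : Set ι} {A : ι → Set Y} (hA : ∀ a ∈ I, BaireMeasurableSet (A a))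
    (hd : I.PairwiseDisjoint A) : {a ∈ I | (A a)ᶜ ∉ residual Y}.Countable := by
  choose! U hU hU' using fun a ha => (hA a ha).residualEq_isOpen
  refine Set.PairwiseDisjoint.countable_of_isOpen (s := U) ?_ (fun a ha => hU a ha.1) ?_
  · intro a ha b hb hab
    rw [Function.onFun, Set.disjoint_iff_inter_eq_empty]
    by_contra hne
    obtain ⟨y, ⟨h1, h2⟩, h3, h4⟩ := (dense_of_mem_residual
      (inter_mem (hU' a ha.1) (hU' b hb.1))).inter_open_nonempty _
      ((hU a ha.1).inter (hU b hb.1)) (nonempty_iff_ne_empty.2 hne)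
    exact Set.disjoint_left.1 (hd ha.1 hb.1 hab) (cast h3.symm h1) (cast h4.symm h2)
  · intro a ha
    by_contra hne
    refine ha.2 ?_
    filter_upwards [hU' a ha.1] with y hy h1
    exact hne ⟨y, cast hy h1⟩

theorem long_of_uncountable {ι : Type} [LinearOrder ι] [WellFoundedLT ι] [Uncountable ι] :
    ¬ {a : ι | (Iio a).Countable}.Countable := by
  intro h
  by_cases h1 : {a : ι | ¬ (Iio a).Countable}.Nonempty
  · have h2 := wellFounded_lt.min_mem _ h1
    refine h2 (h.mono fun b hb => ?_)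
    by_contra h3
    exact wellFounded_lt.not_lt_min {a : ι | ¬ (Iio a).Countable} h3 hb
  · refine not_countable_univ (h.mono fun b _ => ?_)
    by_contra h3
    exact h1 ⟨b, h3⟩

theorem exists_long : ∃ (ι : Type) (_ : LinearOrder ι) (_ : WellFoundedLT ι),
    ¬ {a : ι | (Iio a).Countable}.Countable := by
  obtain ⟨i1, i2⟩ := exists_wellFoundedLT ℝ
  exact ⟨ℝ, i1, i2, @long_of_uncountable ℝ i1 i2 inferInstance⟩

/-- The pull back of an orbit equivalence relation is Borel on a dense `Gδ` set. -/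
theorem generic_borel {G X Y : Type} [Group G] [TopologicalSpace G] [IsTopologicalGroup G]
    [PolishSpace G] [TopologicalSpace X] [T3Space X] [SecondCountableTopology X] [MulAction G X]
    [ContinuousSMul G X] [TopologicalSpace Y] [BaireSpace Y] [SeparableSpace Y] {f : Y → X}
    (hf : Continuous f) : ∃ D : Set Y, IsGδ D ∧ Dense D ∧
      @MeasurableSet _ (borel (Y × Y)) {p | p.1 ∈ D ∧ p.2 ∈ D ∧ ∃ g : G, g • f p.1 = f p.2} := by
  letI := upgradeIsCompletelyMetrizable G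
  obtain ⟨ι, _, _, hι⟩ := exists_long
  obtain ⟨C, hC, hC1, hC2⟩ := exists_family G
  borelize Y
  let A : Set G × Set G → ι → Set Y := fun p a =>
    {y | Rel a (f y) p.1 (f y) p.2 ∧ ¬ Step (Rel a) (f y) p.1 (f y) p.2}
  have h1 : ∀ p, {a ∈ {a : ι | (Iio a).Countable} | (A p a)ᶜ ∉ residual Y}.Countable := by
    intro p
    refine countable_nonmeagre (fun a ha => MeasurableSet.baireMeasurableSet ?_) ?_
    · exact meas_and (meas_rel a ha hf hf _ _) (meas_step (meas_rel a ha) hf hf _ _).compl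
    · have key : ∀ a b : ι, a < b → Disjoint (A p a) (A p b) := fun a b hab =>
        Set.disjoint_left.2 fun y h1 h2 => h1.2 (((rel_iff _ _ _ _ _).1 h2.1).2 a hab)
      intro a _ b _ hab
      rcases lt_or_gt_of_ne hab with h | h
      · exact key a b h
      · exact (key b a h).symm
  obtain ⟨a, ha, ha'⟩ : ∃ a : ι, (Iio a).Countable ∧ ∀ p ∈ C ×ˢ C, (A p a)ᶜ ∈ residual Y := by
    by_contra hn
    push Not at hn
    refine hι (((hC.prod hC).biUnion fun p _ => h1 p).mono fun a ha => ?_)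
    obtain ⟨p, hp, hp'⟩ := hn a ha
    exact mem_biUnion hp ⟨ha, hp'⟩
  obtain ⟨D, hD, hD1, hD2⟩ := mem_residual.1 ((countable_bInter_mem (hC.prod hC)).2 ha')
  have hss : ∀ y ∈ D, SelfStable C a (f y) := by
    intro y hy V hV W hW h
    by_contra h'
    exact mem_iInter₂.1 (hD hy) (V, W) ⟨hV, hW⟩ ⟨h, h'⟩
  refine ⟨D, hD1, hD2, ?_⟩
  letI : MeasurableSpace (Y × Y) := borel _
  haveI : BorelSpace (Y × Y) := ⟨rfl⟩
  have h2 : {p : Y × Y | p.1 ∈ D ∧ p.2 ∈ D ∧ ∃ g : G, g • f p.1 = f p.2} =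
      {p : Y × Y | p.1 ∈ D ∧ p.2 ∈ D ∧ Stable C a (f p.1) (f p.2) ∧ Stable C a (f p.2) (f p.1) ∧
        Step (Rel a) (f p.1) (univ : Set G) (f p.2) univ} := by
    ext p
    refine and_congr_right fun h1 => and_congr_right fun _ => ⟨?_, ?_⟩
    · rintro ⟨g, hg⟩
      rw [← hg]
      refine ⟨by simpa using (hss _ h1).stable hC1 1 g, by simpa using (hss _ h1).stable hC1 g 1,
        fun V _ h3 ⟨v, hv⟩ => ⟨{u | u * g ∈ V}, subset_univ _,
          h3.preimage (continuous_mul_const g), ⟨v * g⁻¹, by simpa using hv⟩, ?_⟩⟩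
      simpa using Rel.move' a (g := g) (h := 1) (V₂ := {u | u * g ∈ V}) (W₂ := V)
        (fun _ hu => hu) (by simp) (Rel.refl a (f p.1) V)
    · rintro ⟨h3, h4, h5⟩
      exact back_and_forth hC2 h3 h4 h5
  rw [h2]
  have hp : Continuous fun p : Y × Y => f p.1 := hf.comp continuous_fst
  have hq : Continuous fun p : Y × Y => f p.2 := hf.comp continuous_snd
  have hst : ∀ {p q : Y × Y → X}, Continuous p → Continuous q →
      MeasurableSet {z | Stable C a (p z) (q z)} := fun hp hq =>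
    meas_ball (countable_countableBasis G) fun V _ =>
      meas_ball (countable_countableBasis G) fun W _ =>
        meas_ball (countable_countableBasis G) fun W' _ => meas_imp (MeasurableSet.const _)
          (meas_imp (meas_rel a ha hp hq V W) (meas_step (meas_rel a ha) hp hq V W'))
  exact meas_and (hD1.preimage continuous_fst).measurableSet
    (meas_and (hD1.preimage continuous_snd).measurableSet
      (meas_and (hst hp hq) (meas_and (hst hq hp) (meas_step (meas_rel a ha) hp hq _ _))))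

end Pool.Agent.Lib.MP_8468cd_lc
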